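import Pool.Agent.X269.ET.FieldComp

/-! # MP_2429c0_al: local conditions on norm groups

Let `F` be a field of characteristic `≠ 2` with finitely many square classes, `N(a)` the group of
the nonzero values of `x² - a y²`, and let `C` be the smallest subgroup of `F*` which contains every
`a` such that `N(a)` has index at most two, or `N(a) C = F*`, or `N(a) N(ag) = F*` for some
`g ∈ C`. The quaternionic structure of `F` is of elementary type if `C` has index at most four, or
if for all `a`, `b`, `c` outside `C` which are not rigid the groups `N(a)` and `N(b)` are comparable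
or their product contains `N(c)`; more generally, a condition on `a`, `ag`, `ah` modulo `C ⟨g,h⟩` is
enough. -/

set_option autoImplicit false

namespace Pool.Agent.Results.MP_2429c0_al.ComparableNormGroups

open Pool.Agent.H315R3.ETC Pool.Agent.TH188.ET Pool.Agent.X269.ET

theorem result {F : Type*} [Field F] (h2 : (2 : F) ≠ 0) (hfin : FinSq F) :
    ((fieldLargeCore F).index ≤ 4 → ∃ S : QData, Elem S ∧ IsStructureOf F S) ∧
    ((∀ a g h : Fˣ, NormCondition a g h) → ∃ S : QData, Elem S ∧ IsStructureOf F S) ∧
    (NormComparable F → ∃ S : QData, Elem S ∧ IsStructureOf F S) :=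
  ⟨fun h => field_elem h2 hfin (Or.inl h), fun h => field_elem h2 hfin (Or.inr (Or.inl h)),
    fun h => field_elem h2 hfin (Or.inr (Or.inr h))⟩

end Pool.Agent.Results.MP_2429c0_al.ComparableNormGroups
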