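import Pool.Agent.X21.ET.Fld

/-! # MP_2429c0_al: fields with at most 27 quaternion algebras

Let `F` be a field of characteristic `≠ 2` with finitely many square classes, and let `N(a)` be the
group of the nonzero values of `x² - a y²`.  If there are at most 27 isomorphism classes of
quaternion algebras over `F`, or if of any three elements of `F*` which are independent modulo
squares one has a norm group `N(a)` of index at most four, or if `N(a) N(b)` has index at most two
for all `a, b` which are independent modulo squares, then the quaternionic structure of `F` is of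
elementary type. -/

set_option autoImplicit false

open scoped Quaternion

namespace Pool.Agent.Results.MP_2429c0_al.FewQuaternionAlgebras

open Pool.Agent.H315R3.ETC Pool.Agent.TH188.ET Pool.Agent.X21.ET

theorem result {F : Type*} [Field F] (h2 : (2 : F) ≠ 0) (hfin : FinSq F) :
    -- among 28 quaternion algebras two are isomorphic
    ((∀ a b : Fin 28 → Fˣ, ∃ i j, i ≠ j ∧
        Nonempty (ℍ[F,(a i : F),0,(b i : F)] ≃ₐ[F] ℍ[F,(a j : F),0,(b j : F)])) →
      ∃ S : QData, Elem S ∧ IsStructureOf F S) ∧
    -- of three independent square classes one has a norm group of index at most four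
    ((∀ x y z : Fˣ, ¬ SqDependent x y z → (normGroup x).index ≤ 4 ∨ (normGroup y).index ≤ 4 ∨
        (normGroup z).index ≤ 4) →
      ∃ S : QData, Elem S ∧ IsStructureOf F S) ∧
    -- products of two norm groups have index at most two
    ((∀ a b : Fˣ, ¬ IsSquare a → ¬ IsSquare b → ¬ IsSquare (a * b) →
        (normGroup a ⊔ normGroup b).index ≤ 2) →
      ∃ S : QData, Elem S ∧ IsStructureOf F S) ∧
    -- three-generated groups of square classes have few quaternion algebras or a good basis
    ((∀ x y z : Fˣ, ¬ SqDependent x y z →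
        AtMost27 (Subgroup.closure ({x, y, z} : Set Fˣ)) ∨ ∃ x' y' z' : Fˣ,
          Subgroup.closure ({x', y', z'} : Set Fˣ) ⊔ squares F =
            Subgroup.closure {x, y, z} ⊔ squares F ∧ NormGood x' y' z') →
      ∃ S : QData, Elem S ∧ IsStructureOf F S) := by
  refine ⟨fun h => field_good h2 hfin fun x y z _ => Or.inl fun a b _ => h a b,
    field_small h2 hfin, fun h => field_good h2 hfin fun x y z hd =>
      Or.inr ⟨x, y, z, rfl, Or.inr (Or.inl ⟨?_, ?_⟩)⟩, field_good h2 hfin⟩
  · unfold SqDependent at hd
    push Not at hd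
    obtain ⟨n1, n2, n3, n4, n5, n6, n7⟩ := hd
    refine h _ _ n2 n5 fun hc => n1 ?_
    rw [mul_left_comm] at hc
    obtain ⟨c, hc⟩ := hc
    refine ⟨c * y⁻¹, ?_⟩
    rw [mul_mul_mul_comm, ← hc, mul_assoc x, ← mul_inv, mul_inv_cancel, mul_one]
  · unfold SqDependent at hd
    push Not at hd
    obtain ⟨n1, n2, n3, n4, n5, n6, n7⟩ := hd
    refine h _ _ n3 n6 fun hc => n1 ?_
    rw [mul_left_comm] at hc
    obtain ⟨c, hc⟩ := hc
    refine ⟨c * z⁻¹, ?_⟩
    rw [mul_mul_mul_comm, ← hc, mul_assoc x, ← mul_inv, mul_inv_cancel, mul_one]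

end Pool.Agent.Results.MP_2429c0_al.FewQuaternionAlgebras
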