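import Pool.Agent.X269.ET.FieldPair

/-! # MP_2429c0_al: products of two norm groups of index at most two

Let `F` be a field of characteristic `≠ 2` with finitely many square classes and let `N(a)` be the
group of the nonzero values of `x² - a y²`. If for all `x, y, z` which are independent modulo
squares one of the groups `N(x) N(y)` and `N(x) N(z)` has index at most two in `F*`, then the
quaternionic structure of `F` is of elementary type. More generally a condition on pairs of the four
elements `x, y, z, xyz` is enough, and it may be combined with the known conditions on the size of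
the groups `{a, F*}` in `K_2(F)/2`. -/

set_option autoImplicit false

namespace Pool.Agent.Results.MP_2429c0_al.NormGroupProducts

open Pool.Agent.H315R3.ETC Pool.Agent.TH188.ET Pool.Agent.X269.ET
open Pool.Agent.TH673.VG (normGroup)

theorem result {F : Type*} [Field F] (h2 : (2 : F) ≠ 0) (hfin : FinSq F) :
    ((∀ x y z : Fˣ, NormIndependent x y z →
      (normGroup x ⊔ normGroup y).index ≤ 2 ∨ (normGroup x ⊔ normGroup z).index ≤ 2) →
      ∃ S : QData, Elem S ∧ IsStructureOf F S) ∧
    ((∀ x y z : Fˣ, NormIndependent x y z →
      Pool.Agent.TH188.ETV.SmallG (sy (F := F)) x y z ∨ NormPair x y z) →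
      ∃ S : QData, Elem S ∧ IsStructureOf F S) :=
  ⟨field_matching h2 hfin, field_planes h2 hfin⟩

end Pool.Agent.Results.MP_2429c0_al.NormGroupProducts
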