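import Pool.Agent.X269.ET.Fin
import Pool.Agent.Results.MP_2429c0_al.HigherCommonSlot

/-! # MP_2429c0_al: descent of elementary type along odd extensions and other transfers

Let `K/F` be an algebraic extension all of whose finite subextensions have odd degree, or any
extension with a transfer: a homomorphism `N : K* → F*` with `N(b) ∈ b F*²` for `b ∈ F*` which maps
the values of `x² - a y²` over `K` to values of this form over `F`, for all `a ∈ F*`. If the
quaternionic structure of `K` is of elementary type, then `F` has finitely many square classes and
the quaternionic structure of `F` is of elementary type. Without finiteness: if all relations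
between symbols in `K_2(K)/2` come from common slots, then so do those in `K_2(F)/2`. -/

set_option autoImplicit false

namespace Pool.Agent.Results.MP_2429c0_al.OddDegreeExtensions

open Pool.Agent.H315R3.ETC Pool.Agent.TH188.ET Pool.Agent.X269.ET

theorem result {F : Type*} [Field F] {K : Type*} [Field K] [Algebra F K] (h2 : (2 : F) ≠ 0)
    (hK : IsOddExtension F K ∨ ∃ N : Kˣ →* Fˣ, IsTransfer N) :
    -- elementary type descends
    ((∃ S : QData, Elem S ∧ IsStructureOf K S) →
      FinSq F ∧ ∃ S : QData, Elem S ∧ IsStructureOf F S) ∧
    -- relations between symbols, for arbitrary numbers of square classes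
    (RelationsFromSlots K → RelationsFromSlots F) := by
  have h2K : (2 : K) ≠ 0 := by
    intro h
    apply h2
    have h1 : algebraMap F K 2 = 0 := by
      rw [map_ofNat]
      exact h
    exact (algebraMap F K).injective (h1.trans (map_zero _).symm)
  have hrel : RelationsFromSlots K → RelationsFromSlots F := by
    intro h
    rcases hK with hK | ⟨N, hN⟩
    · exact relations_of_odd hK h
    · exact relations_descend hN h
  refine ⟨fun hE => ?_, hrel⟩
  have hfin : FinSq K := by
    obtain ⟨S, hS, hKS⟩ := hE
    exact finSq_of_structure hKS (elem_finite hS)
  have hfinF : FinSq F := by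
    refine finSq_of_inj (K := K) (fun b hb => ?_) hfin
    rcases hK with hK | ⟨N, hN⟩
    · exact sq_of_odd hK b hb
    · exact sq_of_transfer hN b hb
  exact ⟨hfinF, (HigherCommonSlot.result h2 hfinF).1.2
    (hrel ((HigherCommonSlot.result h2K hfin).1.1 hE))⟩

end Pool.Agent.Results.MP_2429c0_al.OddDegreeExtensions
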